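import Pool.Agent.R165.Spec.F

/-!
# MP_8b4afa_an: joint realisability of lower and Assouad spectra

Every pair `(φL, φA)` satisfying condition (J), with `φA` `d`-Lipschitz and `φA 1 = 0`, is the pair
of normalised lower and Assouad spectra of a subset of `ℝ^d`.
-/

namespace Pool.Agent.Results.MP_8b4afa_an.JointSpectra

open Set Metric Pool.Agent.R165.Spec

theorem result (d : ℕ) (φL φA : ℝ → ℝ) (h : CondJ d φL φA) :
    ∃ F : Set (EuclideanSpace ℝ (Fin d)), F.Nonempty ∧ ∀ θ ∈ Ioc (0 : ℝ) 1,
      (1 - θ) * dimL θ F = φL θ ∧ (1 - θ) * dimA θ F = φA θ := by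
  rcases Nat.eq_zero_or_pos d with rfl | hd
  · -- dimension zero
    refine ⟨univ, ⟨0, mem_univ _⟩, fun θ hθ => ?_⟩
    have hL : φL θ = 0 := by
      have := h.rangeL θ hθ
      rw [Nat.cast_zero] at this
      exact le_antisymm this.2 this.1
    have hA : φA θ = 0 := by
      have := h.rangeA θ hθ
      rw [Nat.cast_zero] at this
      exact le_antisymm this.2 this.1
    rcases hθ.2.lt_or_eq with hθ1 | rfl
    swap
    · rw [hL, hA]
      simp
    have hN : ∀ t x, N θ (univ : Set (EuclideanSpace ℝ (Fin 0))) t x = 1 := by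
      intro t x
      refine le_antisymm ?_ (one_le_N (mem_univ x))
      have := covN_le (r := (2 : ℝ) ^ (-t)) (E := closedBall x ((2 : ℝ) ^ (-(θ * t))) ∩ univ) {x}
        (fun y _ => ⟨x, Finset.mem_singleton_self x, by
          rw [Subsingleton.elim y x, dist_self]
          positivity⟩)
      rw [Finset.card_singleton] at this
      unfold N
      exact_mod_cast this
    rw [hL, hA]
    constructor
    · refine dimL_eq (K := 0) (T := 0) hθ1 le_rfl (fun t _ _ x _ => ?_) (fun t _ _ => ⟨0, mem_univ _, ?_⟩)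
      · rw [hN]
        simp
      · rw [hN]
        simp
    · refine dimA_eq (K := 1) (T := 0) hθ1 le_rfl zero_le_one (fun t ht x _ => ?_)
        (fun t _ _ => ⟨0, mem_univ _, ?_⟩)
      · rw [hN, mul_zero, zero_add, Real.rpow_one]
        linarith
      · rw [hN]
        refine Real.rpow_le_one_of_one_le_of_nonpos (by norm_num) (by linarith)
  · refine ⟨FS d φL φA, ⟨vec 1 ∅, 1, le_rfl, ∅, allowed_empty 1, rfl⟩, fun θ hθ => ?_⟩
    have hL := (h.rangeL θ hθ).1
    have hA := (h.rangeA θ hθ).1
    rcases hθ.2.lt_or_eq with hθ1 | rfl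
    swap
    · rw [h.L1, h.A1]
      simp
    have hθ0 := hθ.1
    have hd0 : (0 : ℝ) ≤ d := by positivity
    constructor
    · refine dimL_eq (K := (d * (d + 4) / θ + 1 + 2 * d) + (3 * d + (5 * d / θ + d * (d + 3))))
        (T := (d + 7) / (1 - θ) + 6 / θ) hθ1 hL (fun t hT ht x hx => ?_) (fun t hT ht => ?_)
      · have h1θ : 0 < 1 - θ := by linarith
        have h6 : 0 ≤ 6 / θ := by positivity
        refine le_trans ?_ (lower h hx hθ0 hθ1 (by linarith))
        refine Real.rpow_le_rpow_of_exponent_le (by norm_num) ?_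
        have : 0 ≤ 3 * d + (5 * d / θ + d * (d + 3)) := by positivity
        linarith
      · have h1θ : 0 < 1 - θ := by linarith
        have h6 : 0 ≤ (d + 7) / (1 - θ) := by positivity
        obtain ⟨x, hx, hx2⟩ := attained_lower h hd hθ0 hθ1 (t := t) (by linarith)
        refine ⟨x, hx, hx2.trans ?_⟩
        have h5 : (5 : ℝ) ^ d ≤ (2 : ℝ) ^ (3 * d : ℝ) := by
          have e1 : (2 : ℝ) ^ (3 * d : ℝ) = 8 ^ d := by
            have : (3 * d : ℝ) = ((3 * d : ℕ) : ℝ) := by push_cast; ring
            rw [this, Real.rpow_natCast, pow_mul]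
            norm_num
          rw [e1]
          exact pow_le_pow_left₀ (by norm_num) (by norm_num) d
        refine (mul_le_mul_of_nonneg_right h5 (by positivity)).trans ?_
        rw [← Real.rpow_add (by norm_num)]
        refine Real.rpow_le_rpow_of_exponent_le (by norm_num) ?_
        have : 0 ≤ d * (d + 4) / θ + 1 + 2 * d := by positivity
        linarith
    · have hKU : 0 ≤ KU d := by
        unfold KU
        positivity
      refine dimA_eq (K := (5 ^ d + 1 + (d + 3)) + (KU d + (d * (d + 4) + 1 + 3 * d)))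
        (T := (d + 8) / (1 - θ)) hθ1 hA (by positivity) (fun t ht x hx => ?_) (fun t hT ht => ?_)
      · refine (upper h hd hx hθ0 hθ1 ht).trans ?_
        have h5 : (0 : ℝ) ≤ 5 ^ d := by positivity
        refine mul_le_mul ?_ (Real.rpow_le_rpow_of_exponent_le (by norm_num) ?_) (by positivity)
          (by positivity)
        · have : 0 ≤ d * (d + 4) + 1 + 3 * (d : ℝ) := by positivity
          linarith
        · have : 0 ≤ 5 ^ d + 1 + ((d : ℝ) + 3) + (d * (d + 4) + 1 + 3 * d) := by positivity
          linarith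
      · obtain ⟨x, hx, hx2⟩ := attained_upper h hθ0 hθ1 (t := t) hT.le
        refine ⟨x, hx, le_trans ?_ hx2⟩
        refine Real.rpow_le_rpow_of_exponent_le (by norm_num) ?_
        have : 0 ≤ 5 ^ d + 1 + ((d : ℝ) + 3) + KU d := by positivity
        linarith

end Pool.Agent.Results.MP_8b4afa_an.JointSpectra
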